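import Pool.Agent.Run7.h495.SV.Stm

/-!
Project SV (helper495), piece TENT (helper181).
-/

set_option autoImplicit false
open MeasureTheory Set Filter Topology Metric Module
open scoped ENNReal RealInnerProductSpace ContDiff


namespace Pool.Agent.Run7.h181.SV

open Pool.Agent.Run7.h495.SV

theorem red (f : ℝ → ℂ) (hf : Continuous f) :
    ∫ v : ℝ, f v * (tent v : ℂ) =
      (∫ v in (-2 : ℝ)..0, f v * ((2 + v : ℝ) : ℂ)) + ∫ v in (0 : ℝ)..2, f v * ((2 - v : ℝ) : ℂ) := by
  have h0 : ∫ v : ℝ, f v * (tent v : ℂ) = ∫ v in Ioc (-2 : ℝ) 2, f v * (tent v : ℂ) := by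
    symm
    apply setIntegral_eq_integral_of_forall_compl_eq_zero
    intro x hx
    have : tent x = 0 := by
      unfold tent
      apply max_eq_left
      rw [mem_Ioc, not_and_or, not_lt, not_le] at hx
      rcases hx with h | h
      · rw [abs_of_neg (by linarith)]; linarith
      · rw [abs_of_pos (by linarith)]; linarith
    rw [this]; simp
  have hc : Continuous fun v : ℝ => f v * (tent v : ℂ) := by
    have : Continuous tent := by unfold tent; fun_prop
    fun_prop
  rw [h0, ← intervalIntegral.integral_of_le (by norm_num),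
    ← intervalIntegral.integral_add_adjacent_intervals (b := 0)
      (hc.intervalIntegrable _ _) (hc.intervalIntegrable _ _)]
  congr 1
  · apply intervalIntegral.integral_congr
    intro v hv
    rw [uIcc_of_le (by norm_num)] at hv
    have : tent v = 2 + v := by
      unfold tent
      rw [abs_of_nonpos hv.2, max_eq_right (by linarith [hv.1])]
      ring
    simp only [this]
  · apply intervalIntegral.integral_congr
    intro v hv
    rw [uIcc_of_le (by norm_num)] at hv
    have : tent v = 2 - v := by
      unfold tent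
      rw [abs_of_nonneg hv.1, max_eq_right (by linarith [hv.2])]
    simp only [this]

theorem hder (w : ℂ) (v : ℝ) : HasDerivAt (fun v : ℝ => Complex.exp (w * v)) (w * Complex.exp (w * v)) v := by
  have h1 : HasDerivAt (fun v : ℝ => w * (v : ℂ)) w v := by
    simpa using (Complex.ofRealCLM.hasDerivAt (x := v)).const_mul w
  have := h1.cexp
  simpa [mul_comm] using this

theorem t_TENT : S_TENT := by
  intro η
  by_cases hη : η = 0
  · subst hη
    have h := red (fun _ => 1) continuous_const
    have e : ∫ v : ℝ, Complex.exp (-((v * 0 : ℝ) : ℂ) * Complex.I) * (tent v : ℂ)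
        = ∫ v : ℝ, (1 : ℂ) * (tent v : ℂ) := by
      congr 1
      funext v
      simp
    rw [e, h]
    have a1 : ∫ v in (-2 : ℝ)..0, (1 : ℂ) * ((2 + v : ℝ) : ℂ) = ((∫ v in (-2 : ℝ)..0, (2 + v) : ℝ) : ℂ) := by
      rw [← intervalIntegral.integral_ofReal]
      simp
    have a2 : ∫ v in (0 : ℝ)..2, (1 : ℂ) * ((2 - v : ℝ) : ℂ) = ((∫ v in (0 : ℝ)..2, (2 - v) : ℝ) : ℂ) := by
      rw [← intervalIntegral.integral_ofReal]
      simp
    have b1 : ∫ v in (-2 : ℝ)..0, (2 + v) = 2 := by
      rw [intervalIntegral.integral_add (by simp) (by simp)]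
      simp
      norm_num
    have b2 : ∫ v in (0 : ℝ)..2, (2 - v) = 2 := by
      rw [intervalIntegral.integral_sub (by simp) (by simp)]
      simp
      norm_num
    rw [a1, a2, b1, b2]
    simp
    norm_num
  · set w : ℂ := -(η : ℂ) * Complex.I with hw
    have hη' : (η : ℂ) ≠ 0 := by exact_mod_cast hη
    have hw0 : w ≠ 0 := mul_ne_zero (neg_ne_zero.2 hη') Complex.I_ne_zero
    have hf : Continuous fun v : ℝ => Complex.exp (w * v) := by fun_prop
    have e : ∫ v : ℝ, Complex.exp (-((v * η : ℝ) : ℂ) * Complex.I) * (tent v : ℂ)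
        = ∫ v : ℝ, Complex.exp (w * v) * (tent v : ℂ) := by
      congr 1
      funext v
      congr 2
      rw [hw]
      push_cast
      ring
    rw [e, red _ hf]
    have i1 : ∫ v in (0 : ℝ)..2, Complex.exp (w * v) * ((2 - v : ℝ) : ℂ) =
        (Complex.exp (2 * w) - 1) / w ^ 2 - 2 / w := by
      have hd : ∀ v ∈ uIcc (0 : ℝ) 2, HasDerivAt
          (fun v : ℝ => Complex.exp (w * v) * (((2 - v : ℝ) : ℂ) / w + 1 / w ^ 2))
          (Complex.exp (w * v) * ((2 - v : ℝ) : ℂ)) v := by
        intro v _
        have h1 : HasDerivAt (fun v : ℝ => (((2 - v : ℝ) : ℂ) / w + 1 / w ^ 2)) (-1 / w) v := by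
          have h2 : HasDerivAt (fun v : ℝ => ((2 - v : ℝ) : ℂ)) (-1) v := by
            have := ((hasDerivAt_id v).const_sub 2).ofReal_comp
            simpa using this
          exact (h2.div_const w).add_const _
        have h3 := (hder w v).mul h1
        have h4 : w * Complex.exp (w * v) * (((2 - v : ℝ) : ℂ) / w + 1 / w ^ 2) +
            Complex.exp (w * v) * (-1 / w) = Complex.exp (w * v) * ((2 - v : ℝ) : ℂ) := by
          field_simp
          ring
        rw [h4] at h3
        exact h3
      rw [intervalIntegral.integral_eq_sub_of_hasDerivAt hd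
        (Continuous.intervalIntegrable (by fun_prop) _ _)]
      have : w * ((2 : ℝ) : ℂ) = 2 * w := by push_cast; ring
      rw [this]
      simp
      ring
    have i2 : ∫ v in (-2 : ℝ)..0, Complex.exp (w * v) * ((2 + v : ℝ) : ℂ) =
        (Complex.exp (-(2 * w)) - 1) / w ^ 2 + 2 / w := by
      have hd : ∀ v ∈ uIcc (-2 : ℝ) 0, HasDerivAt
          (fun v : ℝ => Complex.exp (w * v) * (((2 + v : ℝ) : ℂ) / w - 1 / w ^ 2))
          (Complex.exp (w * v) * ((2 + v : ℝ) : ℂ)) v := by
        intro v _
        have h1 : HasDerivAt (fun v : ℝ => (((2 + v : ℝ) : ℂ) / w - 1 / w ^ 2)) (1 / w) v := by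
          have h2 : HasDerivAt (fun v : ℝ => ((2 + v : ℝ) : ℂ)) 1 v := by
            have := ((hasDerivAt_id v).const_add 2).ofReal_comp
            simpa using this
          exact (h2.div_const w).sub_const _
        have h3 := (hder w v).mul h1
        have h4 : w * Complex.exp (w * v) * (((2 + v : ℝ) : ℂ) / w - 1 / w ^ 2) +
            Complex.exp (w * v) * (1 / w) = Complex.exp (w * v) * ((2 + v : ℝ) : ℂ) := by
          field_simp
          ring
        rw [h4] at h3
        exact h3
      rw [intervalIntegral.integral_eq_sub_of_hasDerivAt hd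
        (Continuous.intervalIntegrable (by fun_prop) _ _)]
      have : w * ((-2 : ℝ) : ℂ) = -(2 * w) := by push_cast; ring
      rw [this]
      simp
      ring
    rw [i1, i2]
    have hs : (Real.sinc η : ℝ) = Real.sin η / η := Real.sinc_of_ne_zero hη
    rw [hs]
    have hww : w ^ 2 = -(η : ℂ) ^ 2 := by
      rw [hw, mul_pow, Complex.I_sq]; ring
    have hexp : Complex.exp (2 * w) + Complex.exp (-(2 * w)) = 2 * Complex.cos (2 * η) := by
      rw [Complex.two_cos, hw]
      have e1 : 2 * (-(η : ℂ) * Complex.I) = -(2 * (η : ℂ)) * Complex.I := by ring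
      have e2 : -(-(2 * (η : ℂ)) * Complex.I) = 2 * (η : ℂ) * Complex.I := by ring
      rw [e1, e2]
      ring
    have hsum : (Complex.exp (-(2 * w)) - 1) / w ^ 2 + 2 / w +
        ((Complex.exp (2 * w) - 1) / w ^ 2 - 2 / w) =
        (2 * Complex.cos (2 * η) - 2) / w ^ 2 := by
      rw [← hexp]
      ring
    rw [hsum, hww, Complex.cos_two_mul]
    have hsc : Complex.cos (η : ℂ) ^ 2 = 1 - Complex.sin (η : ℂ) ^ 2 := by
      rw [← Complex.sin_sq_add_cos_sq (η : ℂ)]; ring
    rw [hsc]
    push_cast
    field_simp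
    ring

end Pool.Agent.Run7.h181.SV
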